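import Pool.Agent.Helper62.HX.Stm
import Pool.Agent.Helper93.BW.RkQe

/-! # H6: the data of a family of even degree -/

set_option autoImplicit false

open Polynomial Matrix Finset

namespace Pool.Agent.Helper61.HX

open Pool.Agent.Helper62.BM Pool.Agent.Helper62.BW Pool.Agent.Helper62.BX Pool.Agent.Helper62.VX
  Pool.Agent.Helper62.HX

/-- `W_Qe` for any degree. -/
theorem qe {A : Type} [CommRing A] [IsDomain A] {N : ℕ} {F : A[X][X]} (hdeg : F.natDegree = N + 1)
    {t₀ x₀ : A} {f₁ : A[X]} (hF : F.map (evalRingHom t₀) = (X - Polynomial.C x₀) ^ 2 * f₁)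
    (l : Fin N) :
    ∑ m : Fin N, (Q2F N F l m).eval t₀ * x₀ ^ (m : ℕ) =
      ((X - Polynomial.C x₀) * derivative f₁).coeff l := by
  have hcF : ∀ k : ℕ, (F.coeff k).eval t₀ = (F.map (evalRingHom t₀)).coeff k := by
    intro k; rw [coeff_map]; rfl
  have hexp : F.map (evalRingHom t₀) =
      X * (X * f₁) - Polynomial.C (2 * x₀) * (X * f₁) + Polynomial.C (x₀ ^ 2) * f₁ := by
    rw [hF]; simp only [map_mul, map_pow, map_ofNat]; ring
  have hc2 : ∀ k : ℕ, (F.coeff (k + 2)).eval t₀ =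
      f₁.coeff k - 2 * x₀ * f₁.coeff (k + 1) + x₀ ^ 2 * f₁.coeff (k + 2) := by
    intro k
    rw [hcF, hexp]
    simp only [coeff_add, coeff_sub, coeff_C_mul]
    rw [show k + 2 = (k + 1) + 1 from rfl, coeff_X_mul, coeff_X_mul, coeff_X_mul]
  -- the degree of `f₁`
  have hf1 : ∀ k : ℕ, N ≤ k → f₁.coeff k = 0 := by
    intro k hk
    by_cases h0 : f₁ = 0
    · rw [h0, coeff_zero]
    apply coeff_eq_zero_of_natDegree_lt
    have h1 : (F.map (evalRingHom t₀)).natDegree ≤ N + 1 := by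
      rw [← hdeg]; exact natDegree_map_le
    rw [hF, Monic.natDegree_mul' ((monic_X_sub_C x₀).pow 2) h0,
      (monic_X_sub_C x₀).natDegree_pow, natDegree_X_sub_C] at h1
    omega
  -- the right side
  have hR : ((X - Polynomial.C x₀) * derivative f₁).coeff (l : ℕ) =
      (l : ℕ) * f₁.coeff l - ((l : ℕ) + 1) * (x₀ * f₁.coeff ((l : ℕ) + 1)) := by
    rw [sub_mul, coeff_sub, coeff_C_mul, coeff_derivative]
    have : (X * derivative f₁).coeff (l : ℕ) = ((l : ℕ) : A) * f₁.coeff l := by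
      rcases Nat.eq_zero_or_pos (l : ℕ) with h | h
      · rw [h]; simp
      · obtain ⟨j, hj⟩ : ∃ j, (l : ℕ) = j + 1 := ⟨(l : ℕ) - 1, by omega⟩
        rw [hj, coeff_X_mul, coeff_derivative]; push_cast; ring
    rw [this]; ring
  have hL : ∀ m : Fin N, (Q2F N F l m).eval t₀ * x₀ ^ (m : ℕ) =
      (fun k : ℕ => (((l : ℕ) : A) - (k : A)) * (f₁.coeff ((l : ℕ) + k) * x₀ ^ k
        - 2 * (f₁.coeff ((l : ℕ) + (k + 1)) * x₀ ^ (k + 1))
        + f₁.coeff ((l : ℕ) + (k + 2)) * x₀ ^ (k + 2))) (m : ℕ) := by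
    intro m
    simp only [Q2F, Matrix.of_apply, eval_mul, eval_sub, eval_natCast]
    rw [hc2 ((l : ℕ) + m)]
    ring_nf
  rw [sum_congr rfl (fun m _ => hL m), Fin.sum_univ_eq_sum_range
    (fun k : ℕ => (((l : ℕ) : A) - (k : A)) * (f₁.coeff ((l : ℕ) + k) * x₀ ^ k
        - 2 * (f₁.coeff ((l : ℕ) + (k + 1)) * x₀ ^ (k + 1))
        + f₁.coeff ((l : ℕ) + (k + 2)) * x₀ ^ (k + 2))) N]
  rw [Pool.Agent.Helper93.BW.sum_parts (((l : ℕ) : A)) (fun k => f₁.coeff ((l : ℕ) + k) * x₀ ^ k) N, hR]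
  rw [hf1 ((l : ℕ) + N) (by omega), hf1 ((l : ℕ) + (N + 1)) (by omega)]
  rw [zero_mul, zero_mul, mul_zero, mul_zero, add_zero, sub_zero, add_zero, pow_zero, mul_one,
    pow_one]
  ring

section basis

variable {R : Type} [CommRing R] {g : ℕ} {G : R[X]}

theorem bE_deg (hd : G.natDegree = g + 1) (l : Fin (2 * g)) : (bE g G l).natDegree ≤ 2 * g := by
  unfold bE
  have hl := l.2
  split_ifs with h
  · exact (natDegree_X_pow_le _).trans (by omega)
  · refine natDegree_mul_le.trans ?_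
    have := natDegree_X_pow_le (R := R) ((l : ℕ) - g)
    omega

theorem bE_sum (hd : G.natDegree = g + 1) (l : Fin (2 * g)) :
    bE g G l = ∑ i : Fin (2 * g + 1), Polynomial.C ((bE g G l).coeff i) * X ^ (i : ℕ) := by
  rw [Fin.sum_univ_eq_sum_range (fun i => Polynomial.C ((bE g G l).coeff i) * X ^ i) (2 * g + 1)]
  exact as_sum_range_C_mul_X_pow' _ (Nat.lt_succ_of_le (bE_deg hd l))

/-- The basis is linearly independent. -/
theorem bE_indep [Nontrivial R] (hG : G.Monic) (hd : G.natDegree = g + 1) (z : Fin (2 * g) → R)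
    (h : ∑ l, Polynomial.C (z l) * bE g G l = 0) : z = 0 := by
  obtain ⟨f, hf⟩ : ∃ f : ℕ → R, ∀ l : Fin (2 * g), f l = z l :=
    ⟨fun l => if h : l < 2 * g then z ⟨l, h⟩ else 0, fun l => by simp⟩
  obtain ⟨r, hr⟩ : ∃ r : R[X], r = ∑ i ∈ range g, Polynomial.C (f i) * X ^ i := ⟨_, rfl⟩
  obtain ⟨q, hq⟩ : ∃ q : R[X], q = ∑ i ∈ range g, Polynomial.C (f (g + i)) * X ^ i := ⟨_, rfl⟩
  have h1 : ∑ l, Polynomial.C (z l) * bE g G l = r + G * q := by
    have e1 : ∑ l, Polynomial.C (z l) * bE g G l =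
        ∑ l : Fin (2 * g), (fun l : ℕ => Polynomial.C (f l) *
          (if l < g then X ^ l else X ^ (l - g) * G)) (l : ℕ) := by
      refine Finset.sum_congr rfl fun l _ => ?_
      simp only [hf]
      rfl
    rw [e1, Fin.sum_univ_eq_sum_range (fun l : ℕ => Polynomial.C (f l) *
          (if l < g then X ^ l else X ^ (l - g) * G)) (2 * g), two_mul, Finset.sum_range_add, hr, hq,
      Finset.mul_sum]
    congr 1
    · refine Finset.sum_congr rfl fun i hi => ?_
      rw [if_pos (Finset.mem_range.1 hi)]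
    · refine Finset.sum_congr rfl fun i _ => ?_
      rw [if_neg (by omega), Nat.add_sub_cancel_left]
      ring
  have hrd : r.degree < G.degree := by
    rw [degree_eq_natDegree hG.ne_zero, hd, hr]
    refine lt_of_lt_of_le (b := ((g : ℕ) : WithBot ℕ)) ?_ (by exact_mod_cast Nat.le_succ g)
    rw [degree_lt_iff_coeff_zero]
    intro m hm
    rw [finsetSum_coeff]
    refine Finset.sum_eq_zero fun i hi => ?_
    have := Finset.mem_range.1 hi
    rw [coeff_C_mul, coeff_X_pow, if_neg (by omega), mul_zero]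
  have h2 := div_modByMonic_unique (f := (0 : R[X])) (g := G) q r hG ⟨by rw [← h1, h], hrd⟩
  rw [zero_divByMonic, zero_modByMonic] at h2
  have co : ∀ (c : ℕ → R) (i : ℕ), i < g → (∑ j ∈ range g, Polynomial.C (c j) * X ^ j : R[X]).coeff i = c i := by
    intro c i hi
    rw [finsetSum_coeff, Finset.sum_eq_single i]
    · rw [coeff_C_mul, coeff_X_pow, if_pos rfl, mul_one]
    · intro j _ hj
      rw [coeff_C_mul, coeff_X_pow, if_neg (Ne.symm hj), mul_zero]
    · intro h
      exact absurd (Finset.mem_range.2 hi) h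
  funext l
  rw [← hf l, Pi.zero_apply]
  rcases lt_or_ge (l : ℕ) g with hl | hl
  · rw [← co f l hl, ← hr, ← h2.2, coeff_zero]
  · have hl2 := l.2
    have := co (fun i => f (g + i)) ((l : ℕ) - g) (by omega)
    rw [← hq, ← h2.1, coeff_zero] at this
    rw [show g + ((l : ℕ) - g) = (l : ℕ) by omega] at this
    exact this.symm

/-- The matrix of the basis. -/
noncomputable def Bm (g : ℕ) (G : R[X]) : Matrix (Fin (2 * g + 1)) (Fin (2 * g)) R :=
  Matrix.of fun i l => (bE g G l).coeff i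

theorem Bm_inj [Nontrivial R] (hG : G.Monic) (hd : G.natDegree = g + 1) (z : Fin (2 * g) → R)
    (h : Bm g G *ᵥ z = 0) : z = 0 := by
  refine bE_indep hG hd z ?_
  ext i
  rw [finsetSum_coeff, coeff_zero]
  rcases lt_or_ge i (2 * g + 1) with hi | hi
  · have := congrFun h ⟨i, hi⟩
    rw [Pi.zero_apply] at this
    rw [← this]
    refine Finset.sum_congr rfl fun l _ => ?_
    rw [coeff_C_mul, mul_comm]
    rfl
  · refine Finset.sum_eq_zero fun l _ => ?_
    rw [coeff_C_mul, coeff_eq_zero_of_natDegree_lt (lt_of_le_of_lt (bE_deg hd l) hi), mul_zero]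

theorem Bm_mat [Nontrivial R] (hG : G.Monic) (hd : G.natDegree = g + 1) {ι : Type} [Fintype ι]
    (Z : Matrix (Fin (2 * g)) ι R) (h : Bm g G * Z = 0) : Z = 0 := by
  ext i j
  have : (fun i => Z i j) = 0 := by
    refine Bm_inj hG hd _ ?_
    funext k
    exact congrFun (congrFun h k) j
  exact congrFun this i

theorem Bm_both [Nontrivial R] (hG : G.Monic) (hd : G.natDegree = g + 1)
    (Z : Matrix (Fin (2 * g)) (Fin (2 * g)) R) (h : Bm g G * Z * (Bm g G)ᵀ = 0) : Z = 0 := by
  have h1 : Z * (Bm g G)ᵀ = 0 := by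
    refine Bm_mat hG hd _ ?_
    rw [← Matrix.mul_assoc, h]
  have h2 : Bm g G * Zᵀ = 0 := by
    rw [← Matrix.transpose_transpose (Bm g G), ← Matrix.transpose_mul, h1, Matrix.transpose_zero]
  have h3 := Bm_mat hG hd _ h2
  rw [← Matrix.transpose_transpose Z, h3, Matrix.transpose_zero]

theorem bE_map {S : Type} [CommRing S] (φ : R →+* S) (l : Fin (2 * g)) :
    (bE g G l).map φ = bE g (G.map φ) l := by
  unfold bE
  split_ifs
  · rw [Polynomial.map_pow, Polynomial.map_X]
  · rw [Polynomial.map_mul, Polynomial.map_pow, Polynomial.map_X]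

end basis

/-- The derivative of a product of matrices. -/
theorem der_mul {A : Type} [CommRing A] {l m n : Type} [Fintype m] (U : Matrix l m A[X])
    (V : Matrix m n A[X]) : (U * V).map (fun q => derivative q) =
      U.map (fun q => derivative q) * V + U * V.map (fun q => derivative q) := by
  ext1 i j
  rw [Matrix.map_apply, Matrix.mul_apply, derivative_sum, Matrix.add_apply, Matrix.mul_apply,
    Matrix.mul_apply, ← Finset.sum_add_distrib]
  refine Finset.sum_congr rfl fun k _ => ?_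
  rw [derivative_mul]
  rfl

theorem der_tr {A : Type} [CommRing A] {l m : Type} (U : Matrix l m A[X]) :
    Uᵀ.map (fun q => derivative q) = (U.map (fun q => derivative q))ᵀ := rfl

theorem conj_eq {A : Type} [CommRing A] {N n : Type} [Fintype N] [Fintype n]
    (B : Matrix N n A[X]) (Q M : Matrix n n A[X]) (MN : Matrix N N A[X]) (W : A[X])
    (hK : MN * B + W • B.map (fun q => derivative q) = B * M) :
    B * (W • Q.map (fun q => derivative q) + M * Q + Q * Mᵀ) * Bᵀ =
      W • (B * Q * Bᵀ).map (fun q => derivative q) + MN * (B * Q * Bᵀ) + (B * Q * Bᵀ) * MNᵀ := by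
  rw [der_mul, der_mul, der_tr]
  set B' := B.map (fun q => derivative q)
  set Q' := Q.map (fun q => derivative q)
  have e1 : B * (W • Q' + M * Q + Q * Mᵀ) * Bᵀ =
      W • (B * Q' * Bᵀ) + (B * M) * Q * Bᵀ + B * Q * (B * M)ᵀ := by
    rw [Matrix.mul_add, Matrix.mul_add, Matrix.add_mul, Matrix.add_mul, Matrix.mul_smul,
      Matrix.smul_mul, Matrix.transpose_mul]
    simp only [Matrix.mul_assoc]
  rw [e1, ← hK, Matrix.transpose_add, Matrix.transpose_mul, Matrix.transpose_smul]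
  simp only [Matrix.add_mul, Matrix.mul_add, Matrix.smul_mul, Matrix.mul_smul, smul_add,
    Matrix.mul_assoc]
  abel

/-- H6. -/
theorem h_data (hLoc : H_LocN) (hRk : H_RkN) (hHor : H_HorN) (hStab : H_Stab) (hQE : H_QE) :
    H_Data := by
  intro A _ _ _ g hg G H hGen t₀ x₀ f₁ hN
  obtain ⟨hG, hGd, hHd, hsep⟩ := hGen
  have hG2 : (G ^ 2).Monic := hG.pow 2
  have hG2d : (G ^ 2).natDegree = 2 * g + 2 := by rw [hG.natDegree_pow, hGd]; ring
  have hlt : H.degree < (G ^ 2).degree := by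
    rw [degree_eq_natDegree hG2.ne_zero, hG2d]
    refine degree_le_natDegree.trans_lt ?_
    exact_mod_cast (show H.natDegree < 2 * g + 2 by omega)
  obtain ⟨F, hF⟩ : ∃ F : A[X][X], F = G ^ 2 + H := ⟨_, rfl⟩
  have hFm : F.Monic := by rw [hF]; exact hG2.add_of_left hlt
  have hFd : F.natDegree = (2 * g + 1) + 1 := by
    rw [hF, natDegree_add_eq_left_of_degree_lt hlt, hG2d]
  rw [← hF] at hsep hN
  obtain ⟨w, P0, S0, hw, hR⟩ := hLoc A (2 * g + 1) (by omega) F hFm hFd hsep t₀ x₀ f₁ hN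
  obtain ⟨ν, hν, hRk'⟩ := hRk A (2 * g + 1) (by omega) F hFm hFd hsep t₀ x₀ f₁ hN
  obtain ⟨q1, q2, δ, δ', hδ, hδ', q3, q4⟩ := hQE.2 A g hg G H hG hGd hHd
  obtain ⟨W, hW⟩ : ∃ W : A[X], W = (X - Polynomial.C t₀) * (2 * w) := ⟨_, rfl⟩
  rw [← hW] at hR
  obtain ⟨P, hP⟩ : ∃ P : Fin (2 * g) → A[X][X], ∀ l, P l = ∑ i : Fin (2 * g + 1),
    Polynomial.C ((bE g G l).coeff i) * P0 i := ⟨_, fun _ => rfl⟩
  obtain ⟨S, hS⟩ : ∃ S : Fin (2 * g) → A[X][X], ∀ l, S l = ∑ i : Fin (2 * g + 1),
    Polynomial.C ((bE g G l).coeff i) * S0 i := ⟨_, fun _ => rfl⟩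
  have hPd : ∀ l, (P l).natDegree ≤ 2 * g := by
    intro l
    rw [hP]
    refine natDegree_sum_le_of_forall_le _ _ fun i _ => ?_
    exact (natDegree_C_mul_le _ _).trans (Nat.le_of_lt_succ (hR i).1)
  have hSd : ∀ l, (S l).natDegree ≤ 2 * g + 1 := by
    intro l
    rw [hS]
    refine natDegree_sum_le_of_forall_le _ _ fun i _ => ?_
    exact (natDegree_C_mul_le _ _).trans (hR i).2.1
  have hrel : ∀ l, 2 * (P l * F + S l * derivative F) = Polynomial.C W * bE g G l * dt F := by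
    intro l
    have e1 : 2 * (P l * F + S l * derivative F) = ∑ i : Fin (2 * g + 1),
        Polynomial.C ((bE g G l).coeff i) * (2 * (P0 i * F + S0 i * derivative F)) := by
      rw [hP, hS, Finset.sum_mul, Finset.sum_mul, ← Finset.sum_add_distrib, Finset.mul_sum]
      refine Finset.sum_congr rfl fun i _ => ?_
      ring
    rw [e1]
    have e2 : Polynomial.C W * bE g G l * dt F = ∑ i : Fin (2 * g + 1),
        Polynomial.C ((bE g G l).coeff i) * (Polynomial.C W * X ^ (i : ℕ) * dt F) := by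
      conv_lhs => rw [bE_sum hGd l, Finset.mul_sum, Finset.sum_mul]
      refine Finset.sum_congr rfl fun i _ => ?_
      ring
    rw [e2]
    refine Finset.sum_congr rfl fun i _ => ?_
    rw [(hR i).2.2]
  have hst : ∀ l, ∃ c : Fin (2 * g) → A[X],
      Polynomial.C W * dt (bE g G l) - P l - 2 * derivative (S l) =
        ∑ m, Polynomial.C (c m) * bE g G m := by
    intro l
    refine hStab A two_ne_zero g hg G H hG hGd hHd W (bE g G l) (P l) (S l) ?_ (hPd l) (hSd l) ?_
    · refine ⟨Pi.single l 1, ?_⟩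
      rw [Finset.sum_eq_single l]
      · rw [Pi.single_eq_same, Polynomial.C_1, one_mul]
      · intro m _ hm
        rw [Pi.single_eq_of_ne hm, Polynomial.C_0, zero_mul]
      · intro h
        exact absurd (Finset.mem_univ _) h
    · rw [← hF]
      exact hrel l
  choose c hc using hst
  obtain ⟨M, hM⟩ : ∃ M : Matrix (Fin (2 * g)) (Fin (2 * g)) A[X], ∀ m l, M m l = c l m :=
    ⟨Matrix.of fun m l => c l m, fun _ _ => rfl⟩
  obtain ⟨MN, hMN⟩ : ∃ MN : Matrix (Fin (2 * g + 1)) (Fin (2 * g + 1)) A[X],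
      ∀ m l, MN m l = -(P0 l + 2 * derivative (S0 l)).coeff m :=
    ⟨Matrix.of fun m l => -(P0 l + 2 * derivative (S0 l)).coeff m, fun _ _ => rfl⟩
  have hco : ∀ (l : Fin (2 * g)) (k : Fin (2 * g + 1)), ∑ m, (bE g G m).coeff k * M m l =
      (Polynomial.C W * dt (bE g G l) - P l - 2 * derivative (S l)).coeff k := by
    intro l k
    rw [hc, finsetSum_coeff]
    refine Finset.sum_congr rfl fun m _ => ?_
    rw [coeff_C_mul, hM, mul_comm]
  -- the two connection matrices
  have hK : MN * Bm g G + W • (Bm g G).map (fun q => derivative q) = Bm g G * M := by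
    ext1 k l
    rw [Matrix.add_apply, Matrix.mul_apply, Matrix.mul_apply, Matrix.smul_apply, Matrix.map_apply]
    have e0 : ∑ m, Bm g G k m * M m l = ∑ m, (bE g G m).coeff k * M m l := rfl
    rw [e0, hco]
    have e1 : ∑ j, MN k j * Bm g G j l = -(P l + 2 * derivative (S l)).coeff k := by
      rw [hP, hS, derivative_sum, Finset.mul_sum, ← Finset.sum_add_distrib, finsetSum_coeff,
        ← Finset.sum_neg_distrib]
      refine Finset.sum_congr rfl fun j _ => ?_
      rw [hMN]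
      have e2 : Polynomial.C ((bE g G l).coeff j) * P0 j +
          2 * derivative (Polynomial.C ((bE g G l).coeff j) * S0 j) =
          Polynomial.C ((bE g G l).coeff j) * (P0 j + 2 * derivative (S0 j)) := by
        rw [derivative_C_mul]
        ring
      rw [e2, coeff_C_mul]
      show _ * (bE g G l).coeff j = _
      ring
    have e3 : W • derivative (Bm g G k l) = (Polynomial.C W * dt (bE g G l)).coeff k := by
      rw [coeff_C_mul, coeff_dt]
      rfl
    rw [e1, e3, ← coeff_neg, ← coeff_add]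
    congr 1
    ring
  have hQ2 : Bm g G * QE g G H * (Bm g G)ᵀ = Q2F (2 * g + 1) F := by
    ext1 i j
    have := hQE.1 A[X] g G H hg hG hGd hHd i j
    rw [← hF] at this
    rw [Matrix.mul_apply]
    simp only [Matrix.mul_apply, Finset.sum_mul, Matrix.transpose_apply]
    rw [Finset.sum_comm]
    exact this
  have hhor : W • (QE g G H).map (fun q => derivative q) + M * QE g G H + QE g G H * Mᵀ = 0 := by
    refine Bm_both hG hGd _ ?_
    rw [conj_eq (Bm g G) (QE g G H) M MN W hK, hQ2]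
    exact hHor A two_ne_zero (2 * g + 1) (by omega) F hFm hFd hsep W P0 S0 hR MN hMN
  -- the residue
  obtain ⟨e, he⟩ : ∃ e : Fin (2 * g) → A, ∀ l, e l = ((bE g G l).map (evalRingHom t₀)).eval x₀ :=
    ⟨_, fun _ => rfl⟩
  have hG0 : (G.map (evalRingHom t₀)).Monic := hG.map _
  have hG0d : (G.map (evalRingHom t₀)).natDegree = g + 1 := by rw [hG.natDegree_map, hGd]
  have hBm0 : Bm g (G.map (evalRingHom t₀)) = (Bm g G).map (evalRingHom t₀) := by
    ext1 k l
    show (bE g (G.map (evalRingHom t₀)) l).coeff k = evalRingHom t₀ ((bE g G l).coeff k)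
    rw [← bE_map, coeff_map]
  have he' : e = ((Bm g G).map (evalRingHom t₀))ᵀ *ᵥ fun j : Fin (2 * g + 1) => x₀ ^ (j : ℕ) := by
    funext l
    rw [he, eval_eq_sum_range' (Nat.lt_succ_of_le (natDegree_map_le.trans (bE_deg hGd l))),
      ← Fin.sum_univ_eq_sum_range (fun i => ((bE g G l).map (evalRingHom t₀)).coeff i * x₀ ^ i)]
    refine Finset.sum_congr rfl fun i _ => ?_
    rw [coeff_map]
    rfl
  obtain ⟨r, hr⟩ : ∃ r : Fin (2 * g) → A, r = (QE g G H).map (evalRingHom t₀) *ᵥ e := ⟨_, rfl⟩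
  have hBr : ∀ k : Fin (2 * g + 1), ((Bm g G).map (evalRingHom t₀) *ᵥ r) k =
      ((X - Polynomial.C x₀) * derivative f₁).coeff k := by
    intro k
    rw [hr, he', Matrix.mulVec_mulVec, Matrix.mulVec_mulVec]
    have e1 : (Bm g G).map (evalRingHom t₀) * (QE g G H).map (evalRingHom t₀) *
        ((Bm g G).map (evalRingHom t₀))ᵀ = (Q2F (2 * g + 1) F).map (evalRingHom t₀) := by
      rw [← hQ2, Matrix.map_mul, Matrix.map_mul]
      rfl
    rw [e1, ← qe hFd hN.1 k]
    rfl
  have hres : ∀ i j, 2 * f₁.eval x₀ * (M i j).eval t₀ = (ν : A) * w.eval t₀ * r i * e j := by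
    intro i j
    obtain ⟨z, hz⟩ : ∃ z : Fin (2 * g) → A, ∀ i, z i = 2 * f₁.eval x₀ * (M i j).eval t₀ -
      (ν : A) * w.eval t₀ * r i * e j := ⟨_, fun _ => rfl⟩
    suffices h : z = 0 by
      have := congrFun h i
      rw [hz, Pi.zero_apply, sub_eq_zero] at this
      exact this
    refine Bm_inj hG0 hG0d z ?_
    funext k
    rw [hBm0, Pi.zero_apply]
    have e1 : ((Bm g G).map (evalRingHom t₀) *ᵥ z) k =
        2 * f₁.eval x₀ * ((∑ m, (bE g G m).coeff k * M m j : A[X])).eval t₀ -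
        (ν : A) * w.eval t₀ * e j * ((Bm g G).map (evalRingHom t₀) *ᵥ r) k := by
      have a1 : ((Bm g G).map (evalRingHom t₀) *ᵥ z) k =
          ∑ m, ((bE g G m).coeff k).eval t₀ * z m := rfl
      have a2 : ((Bm g G).map (evalRingHom t₀) *ᵥ r) k =
          ∑ m, ((bE g G m).coeff k).eval t₀ * r m := rfl
      rw [a1, a2, eval_finsetSum, Finset.mul_sum, Finset.mul_sum, ← Finset.sum_sub_distrib]
      refine Finset.sum_congr rfl fun m _ => ?_
      rw [hz, eval_mul]
      ring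
    have hW0 : W.eval t₀ = 0 := by
      rw [hW, eval_mul, eval_sub, eval_X, eval_C, sub_self, zero_mul]
    have e2 := hRk' w (bE g G j) (P j) (S j) (Nat.lt_succ_of_le (hPd j)) (hSd j)
      (by rw [← hW]; exact hrel j)
    have e3 := congrArg (fun q : A[X] => q.coeff (k : ℕ)) e2
    simp only [coeff_C_mul, coeff_neg, coeff_map] at e3
    rw [e1, hco, hBr, sub_eq_zero]
    have e4 : (Polynomial.C W * dt (bE g G j) - P j - 2 * derivative (S j)).coeff (k : ℕ) =
        W * (dt (bE g G j)).coeff k - (P j + 2 * derivative (S j)).coeff k := by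
      rw [← coeff_C_mul, ← coeff_sub]
      congr 1
      ring
    rw [e4, eval_sub, eval_mul, hW0, zero_mul, zero_sub]
    rw [coe_evalRingHom, ← he] at e3
    linear_combination -e3
  refine ⟨⟨M, QE g G H, 2 * w, t₀, e, 2 * f₁.eval x₀, (ν : A) * w.eval t₀, δ, δ'⟩, P, S,
    ⟨⟨hG, hGd, hHd, hF ▸ hsep⟩, ?_, rfl⟩, q1, q2, q3, q4, hδ, hδ', ?_, ?_, ?_, ?_, ?_, ?_⟩
  · intro l
    refine ⟨hPd l, hSd l, ?_, ?_⟩
    · rw [← hF]
      show _ = Polynomial.C ((X - Polynomial.C t₀) * (2 * w)) * _ * _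
      rw [← hW]
      exact hrel l
    · show Polynomial.C ((X - Polynomial.C t₀) * (2 * w)) * _ - _ - _ = _
      rw [← hW, hc]
      refine Finset.sum_congr rfl fun m _ => ?_
      rw [← hM]
  · show (2 * w).eval t₀ ≠ 0
    rw [eval_mul, eval_ofNat]
    exact mul_ne_zero two_ne_zero hw
  · exact mul_ne_zero two_ne_zero hN.2.2
  · exact mul_ne_zero (Nat.cast_ne_zero.2 hν.ne') hw
  · intro h
    have h1 := congrFun h ⟨0, by omega⟩
    have h2 : e ⟨0, by omega⟩ = 1 := by
      rw [he, bE, if_pos (by exact hg), pow_zero, Polynomial.map_one, eval_one]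
    exact one_ne_zero (h2.symm.trans h1)
  · show ((X - Polynomial.C t₀) * (2 * w)) • _ + _ + _ = 0
    rw [← hW]
    exact hhor
  · intro i j
    have : (∑ l : Fin (2 * g), (QE g G H i l).eval t₀ * e l) = r i := by
      rw [hr]
      rfl
    show 2 * f₁.eval x₀ * (M i j).eval t₀ = (ν : A) * w.eval t₀ *
      (∑ l : Fin (2 * g), (QE g G H i l).eval t₀ * e l) * e j
    rw [this]
    exact hres i j

end Pool.Agent.Helper61.HX
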